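import Pool.Agent.Y350.MD.Fam
import Pool.Agent.Helper245.Sha
import Pool.Agent.Helper245.Bump
import Pool.Agent.Helper245.Drift

/-!
# The diffeomorphism of the three-torus for a countable family of weights, and the entropy of its
iterates (author: helper350, after the files of Helper245)
-/

set_option autoImplicit false

open Filter Topology Manifold Finset
open scoped ContDiff

namespace Pool.Agent.Y350.MD

open Pool.Agent.Helper245 Pool.Agent.Helper245.Sub Pool.Agent.Helper245.Cod
open Pool.Agent.Helper245.Geo Pool.Agent.Helper245.Dif Pool.Agent.Helper245.Orb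
open Pool.Agent.Helper245.Sha

/-- Lower bound for the entropy of the iterates. -/
theorem entropy_iter {F : T3 → T3} (hc : Continuous F) {X : Set (ℤ → Bool)}
    (hXs : ∀ x ∈ X, ∀ c, sh c x ∈ X)
    (hF : ∀ x ∈ X, F (cod x, 1) = (cod (sh 1 x), 1)) {l : ℕ → ℕ} (hl : ∀ k, 2 ^ k ≤ l k)
    (hcard : ∀ k, Real.exp (2 / 5 * l k) ≤ (words X (l k)).ncard) (m : ℕ) (hm : 0 < m) :
    (((m : ℝ) / 5 : ℝ) : EReal) ≤ Dynamics.coverEntropy F^[m] Set.univ := by
  classical
  have hiter : ∀ x ∈ X, ∀ i : ℕ, F^[i] (cod x, 1) = (cod (sh (i : ℤ) x), 1) := by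
    intro x hx i
    induction i with
    | zero => simp [sh_zero]
    | succ i ih =>
      rw [Function.iterate_succ_apply', ih, hF _ (hXs x hx _), sh_add]
      congr 3
      push_cast
      ring
  set U : SetRel T3 T3 := {p | ∀ j ∈ range m, dist (F^[j] p.1) (F^[j] p.2) < 1 / 4} with hU
  have hUu : U ∈ uniformity T3 := by
    refine (Filter.eventually_all_finset (range m)).2 fun j _ => ?_
    have huc : UniformContinuous F^[j] :=
      CompactSpace.uniformContinuous_of_continuous (hc.iterate j)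
    exact huc (Metric.dist_mem_uniformity (by norm_num))
  have key : ∀ k : ℕ, ((words X (l k)).ncard : ℕ∞) ≤
      Dynamics.netMaxcard F^[m] Set.univ U (l k / m + 1) := by
    intro k
    set n := l k with hn
    have hfin : (words X n).Finite := Set.toFinite _
    have hch : ∀ w : Fin n → Bool, ∃ x : ℤ → Bool, w ∈ words X n → x ∈ X ∧ blk x 0 n = w := by
      intro w
      by_cases hw : w ∈ words X n
      · obtain ⟨x, hx, hxw⟩ := hw
        exact ⟨x, fun _ => ⟨hx, hxw⟩⟩
      · exact ⟨fun _ => true, fun h => absurd h hw⟩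
    choose g hg using hch
    have hsep : ∀ w ∈ words X n, ∀ w' ∈ words X n, w ≠ w' → ∃ i < n,
        1 / 2 ≤ dist (F^[i] (cod (g w), 1)) (F^[i] (cod (g w'), 1)) := by
      intro w hw w' hw' hne
      obtain ⟨i, hi⟩ := Function.ne_iff.1 hne
      refine ⟨i, i.2, ?_⟩
      rw [hiter _ (hg w hw).1, hiter _ (hg w' hw').1]
      rw [Prod.dist_eq]
      refine le_trans (dist_cod ?_) (le_max_left _ _)
      have h1 := congrFun (hg w hw).2 i
      have h2 := congrFun (hg w' hw').2 i
      unfold blk at h1 h2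
      unfold sh
      rw [h1, h2]
      exact hi
    have hinj : Set.InjOn (fun w => ((cod (g w), 1) : T3)) (words X n) := by
      intro w hw w' hw' h
      by_contra hne
      obtain ⟨i, _, hi⟩ := hsep w hw w' hw' hne
      simp only at h
      rw [h, dist_self] at hi
      norm_num at hi
    set s : Finset T3 := hfin.toFinset.image (fun w => ((cod (g w), 1) : T3)) with hs
    have hcs : s.card = (words X n).ncard := by
      rw [hs, Finset.card_image_of_injOn, ← Set.ncard_eq_toFinset_card]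
      rw [Set.Finite.coe_toFinset]
      exact hinj
    have hnet : Dynamics.IsDynNetIn F^[m] Set.univ U (n / m + 1) (s : Set T3) := by
      refine ⟨Set.subset_univ _, ?_⟩
      rintro P hP P' hP' hne
      rw [Finset.mem_coe, hs, Finset.mem_image] at hP hP'
      obtain ⟨w, hw, rfl⟩ := hP
      obtain ⟨w', hw', rfl⟩ := hP'
      rw [Set.Finite.mem_toFinset] at hw hw'
      have hww : w ≠ w' := fun h => hne (by rw [h])
      obtain ⟨i, hin, hi⟩ := hsep w hw w' hw' hww
      simp only [Function.onFun]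
      rw [Set.disjoint_left]
      intro z hz hz'
      rw [Dynamics.mem_ball_dynEntourage] at hz hz'
      have hdec : ∀ y : T3, F^[i] y = F^[i % m] ((F^[m])^[i / m] y) := by
        intro y
        rw [← Function.iterate_mul, ← Function.iterate_add_apply, Nat.mod_add_div]
      have hlt : i / m < n / m + 1 := Nat.lt_succ_of_le (Nat.div_le_div_right hin.le)
      have hmem : i % m ∈ range m := Finset.mem_range.2 (Nat.mod_lt _ hm)
      have h1 : dist (F^[i] (cod (g w), 1)) (F^[i] z) < 1 / 4 := by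
        rw [hdec, hdec z]
        exact hz _ hlt _ hmem
      have h2 : dist (F^[i] (cod (g w'), 1)) (F^[i] z) < 1 / 4 := by
        rw [hdec, hdec z]
        exact hz' _ hlt _ hmem
      have h3 := dist_triangle_right (F^[i] (cod (g w), 1)) (F^[i] (cod (g w'), 1)) (F^[i] z)
      linarith
    rw [← hcs]
    exact hnet.card_le_netMaxcard
  have hlt : Tendsto l atTop atTop :=
    tendsto_atTop_mono (fun k => (Nat.lt_two_pow_self (n := k)).le.trans (hl k)) tendsto_id
  have hlt' : Tendsto (fun k => l k / m + 1) atTop atTop :=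
    (tendsto_add_atTop_nat 1).comp ((Nat.tendsto_div_const_atTop hm.ne').comp hlt)
  have h1 : (((m : ℝ) / 5 : ℝ) : EReal) ≤ Dynamics.netEntropyEntourage F^[m] Set.univ U := by
    unfold Dynamics.netEntropyEntourage
    refine Frequently.le_expGrowthSup ?_
    refine hlt'.frequently ((hlt.eventually_ge_atTop m).frequently.mono fun k hk => ?_)
    have h2 : EReal.exp ((((m : ℝ) / 5 : ℝ) : EReal) * ((l k / m + 1 : ℕ) : EReal)) =
        ENNReal.ofReal (Real.exp ((m : ℝ) / 5 * ((l k / m + 1 : ℕ) : ℝ))) := by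
      have : ((((m : ℝ) / 5 : ℝ) : EReal) * ((l k / m + 1 : ℕ) : EReal)) =
          (((m : ℝ) / 5 * ((l k / m + 1 : ℕ) : ℝ) : ℝ) : EReal) := by
        rw [EReal.coe_mul]
        rfl
      rw [this, EReal.exp_coe]
    rw [h2]
    have h3 : (m : ℝ) / 5 * ((l k / m + 1 : ℕ) : ℝ) ≤ 2 / 5 * l k := by
      have h4 : m * (l k / m + 1) ≤ 2 * l k := by
        have := Nat.mul_div_le (l k) m
        rw [mul_add, mul_one]
        omega
      have h5 : (m : ℝ) * ((l k / m + 1 : ℕ) : ℝ) ≤ 2 * l k := by exact_mod_cast h4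
      linarith
    calc ENNReal.ofReal (Real.exp ((m : ℝ) / 5 * ((l k / m + 1 : ℕ) : ℝ)))
        ≤ ENNReal.ofReal (Real.exp (2 / 5 * l k)) :=
          ENNReal.ofReal_le_ofReal (Real.exp_le_exp.2 h3)
      _ ≤ ENNReal.ofReal ((words X (l k)).ncard : ℝ) := ENNReal.ofReal_le_ofReal (hcard k)
      _ = (((words X (l k)).ncard : ℕ∞) : ENNReal) := by
          rw [ENNReal.ofReal_natCast]; rfl
      _ ≤ _ := by exact_mod_cast key k
  exact h1.trans (Dynamics.netEntropyEntourage_le_coverEntropy (T := F^[m]) (F := Set.univ) hUu)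

/-- The diffeomorphism of the three-torus for a countable family of weights bounded by one. -/
theorem base (w : ℕ → ℕ → ℝ) (hw : ∀ j n, |w j n| ≤ 1)
    (hap : ∀ j q a : ℕ, 0 < q →
      Tendsto (fun N : ℕ => (∑ n ∈ range N, if n % q = a then w j n else 0) / N) atTop (𝓝 0)) :
    ∃ F : Diffeomorph I3 I3 T3 T3 1,
      (∀ m : ℕ, 0 < m → (((m : ℝ) / 5 : ℝ) : EReal) ≤ Dynamics.coverEntropy F^[m] Set.univ) ∧
      ∀ (j : ℕ) (f : T3 → ℂ), Continuous f → ∀ x₀ : T3, Tendsto (fun N : ℕ =>
        (∑ n ∈ range N, (w j n : ℂ) * f (F^[n] x₀)) / (N : ℂ)) atTop (𝓝 0) := by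
  -- the subshift
  obtain ⟨X, hXc, hXs, hXu, l, hl, hcard⟩ := exists_subshift w hw hap
  have hXne : X.Nonempty := by
    have h1 := hcard 0
    have h2 : 0 < (words X (l 0)).ncard := by
      have : (0 : ℝ) < (words X (l 0)).ncard := (Real.exp_pos _).trans_le h1
      exact_mod_cast this
    obtain ⟨w, x, hx, _⟩ := Set.nonempty_of_ncard_ne_zero h2.ne'
    exact ⟨x, hx⟩
  obtain ⟨b, hb, hb0, hrate⟩ := exists_rate hw hXs hXu
  -- the bump
  have hKc : IsCompact (incl '' (cod '' X)) :=
    ((hXc.isCompact).image continuous_cod).image continuous_incl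
  have hKne : (incl '' (cod '' X)).Nonempty := (hXne.image _).image _
  obtain ⟨Φ, hΦ, hΦ0, hΦK, p, hp, c, hc, hΦc⟩ := exists_polynomial_bump _ hKc hKne
  -- the Lipschitz constant
  obtain ⟨Λ, hΛ, hlip⟩ := lip_gg
  -- the drift
  obtain ⟨q, hq, hq0, hqz, hqd, n₀, hdr⟩ := exists_drift (rate p Λ b) (tendsto_rate p Λ hb0)
  have hq00 : q 0 = 0 := (hqz 0).2 (Or.inl rfl)
  have hq3 : ∀ t, 3 ≤ |t| → q t = 0 := fun t ht => (hqz t).2 (Or.inr ht)
  obtain ⟨F, hF⟩ := exists_diffeo hq hq00 hq3 hqd (contMDiff_phi hΦ)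
  set φ : T2 → ℝ := fun z => Φ ((z.1 : ℂ), (z.2 : ℂ)) with hφ
  have hφ0 : ∀ z, 0 ≤ φ z := fun z => hΦ0 _
  have hφc : ∀ z, c * Metric.infDist (incl z) (incl '' (cod '' X)) ^ p ≤ φ z := fun z =>
    hΦc (incl z) (norm_incl z)
  refine ⟨F, fun m hm => ?_, ?_⟩
  · -- entropy
    refine entropy_iter (X := X) F.continuous hXs (fun x hx => ?_) hl hcard m hm
    rw [hF]
    have h1 : tau ((1 : Circle)) = 0 := tau_one
    have h2 : FF q φ (cod x, 1) = (cod (sh 1 x), Pc (φ (cod (sh 1 x))) (Pc (q 0) 1)) := by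
      have h3 : (FF q φ (cod x, 1)).1 = cod (sh 1 x) := by
        rw [FF_near (p := (cod x, (1 : Circle))) one_ne (by simp [h1]), gg_cod]
      apply Prod.ext
      · exact h3
      · show Pc (φ (FF q φ (cod x, 1)).1) (Pc (q (tau 1)) 1) = _
        rw [h3, h1]
    have h4 : φ (cod (sh 1 x)) = 0 := hΦK _ ⟨_, ⟨_, hXs x hx 1, rfl⟩, rfl⟩
    rw [h2, h4, hq00, Pc_zero, Pc_zero]
  · -- disjointness
    intro j f hf x₀
    have hmean : Tendsto (fun N : ℕ => (∑ n ∈ range N, w j n) / N) atTop (𝓝 0) := by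
      have h := hap j 1 0 one_pos
      refine h.congr fun N => ?_
      congr 1
      refine Finset.sum_congr rfl fun n _ => ?_
      rw [if_pos (Nat.mod_one n)]
    set x : ℕ → T3 := fun n => F^[n] x₀ with hx
    have hxs : ∀ n, x (n + 1) = FF q φ (x n) := by
      intro n
      simp only [hx]
      rw [Function.iterate_succ_apply', hF]
    rcases orbit_cases hq.continuous hq0 (fun t ht => (hqz t).1 ht) hφ0 hxs with ⟨y, hy⟩ | h
    · exact avg_of_tendsto (hw j) hmean ((hf.tendsto y).comp hy)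
    · obtain ⟨h0, hlim, hle⟩ := h
      refine avg_shadow (X := X) (b := b) (hw j) hb hb0 (hrate j) (fun ε hε => ?_) hf
      exact shadow hXc hXne hq0 hφ0 hp hc hφc hΛ hlip hb hdr hxs h0 hlim hle hε

end Pool.Agent.Y350.MD
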