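import Pool.Agent.Y350.MD.Sub

/-!
# Packaging: the subshift theorem for a countable family of weights, with a common rate
(author: helper350, after the file SubF of Helper245)
-/

set_option autoImplicit false

open Finset Filter Topology

namespace Pool.Agent.Y350.MD

open Pool.Agent.Helper245.Sub

lemma exists_tests : ∃ (T : Tests) (c : ℕ → ℕ), ∀ (j r : ℕ) (v : Fin r → Bool),
    ∃ i, T.f i = ind v ∧ c i = j := by
  classical
  obtain ⟨e, he⟩ := exists_surjective_nat (ℕ × (Σ r : ℕ, Fin r → Bool))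
  refine ⟨⟨fun i => ind (e i).2.2, fun i => (e i).2.1, ?_, ?_⟩, fun i => (e i).1, ?_⟩
  · intro i y
    unfold ind
    split_ifs <;> simp
  · intro i y y' h
    unfold ind
    have : (∀ j : Fin (e i).2.1, y j = (e i).2.2 j) ↔
        (∀ j : Fin (e i).2.1, y' j = (e i).2.2 j) := by
      refine forall_congr' fun j => ?_
      rw [h j j.2]
    simp only [this]
  · intro j r v
    obtain ⟨i, hi⟩ := he (j, ⟨r, v⟩)
    refine ⟨i, ?_, ?_⟩
    · simp only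
      rw [hi]
    · simp only
      rw [hi]

/-- the subshift theorem, for local functions and a countable family of weights -/
theorem exists_subshift (w : ℕ → ℕ → ℝ) (hw : ∀ j n, |w j n| ≤ 1)
    (hap : ∀ j q a : ℕ, 0 < q →
      Tendsto (fun N : ℕ => (∑ n ∈ range N, if n % q = a then w j n else 0) / N) atTop (𝓝 0)) :
    ∃ X : Set (ℤ → Bool), IsClosed X ∧ (∀ x ∈ X, ∀ c, sh c x ∈ X) ∧
      (∀ (j r : ℕ) (v : Fin r → Bool) (ε : ℝ), 0 < ε → ∃ N₀ : ℕ, ∀ N ≥ N₀, ∀ x ∈ X,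
        |∑ n ∈ range N, w j n * ind v (sf x (n : ℤ))| ≤ ε * N) ∧
      ∃ l : ℕ → ℕ, (∀ k, 2 ^ k ≤ l k) ∧
        ∀ k, Real.exp (2 / 5 * l k) ≤ (words X (l k)).ncard := by
  obtain ⟨T, c, hT⟩ := exists_tests
  have hu : ∀ i n, |(fun i => w (c i)) i n| ≤ 1 := fun i n => hw (c i) n
  refine ⟨XX T (fun i => w (c i)), isClosed_XX, fun x hx c => XX_shift hx c, ?_,
    fun k => (lev T (fun i => w (c i)) k).len, le_lev_len T _, fun k => card_words hu k⟩
  intro j r v ε hε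
  obtain ⟨i, hi, hc⟩ := hT j r v
  have h := uniform_est (T := T) hu (fun i q a hq => hap (c i) q a hq) i hε
  rw [← hi, ← hc]
  exact h

/-- the window form of uniform disjointness, with a common rate for all weights -/
theorem exists_rate {w : ℕ → ℕ → ℝ} (hw : ∀ j n, |w j n| ≤ 1) {X : Set (ℤ → Bool)}
    (hXs : ∀ x ∈ X, ∀ c, sh c x ∈ X)
    (hX : ∀ (j r : ℕ) (v : Fin r → Bool) (ε : ℝ), 0 < ε → ∃ N₀ : ℕ, ∀ N ≥ N₀, ∀ x ∈ X,
        |∑ n ∈ range N, w j n * ind v (sf x (n : ℤ))| ≤ ε * N) :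
    ∃ b : ℕ → ℝ, (∀ n, 0 < b n) ∧ Tendsto b atTop (𝓝 0) ∧ ∀ j : ℕ,
      ∀ Φ : (ℤ → Bool) → ℂ, Continuous Φ → ∀ ε > 0, ∃ n₀ : ℕ, ∀ n ≥ n₀, ∀ L : ℕ,
        b n * n ≤ L → ∀ y ∈ X, ‖∑ i ∈ range L, (w j (n + i) : ℂ) * Φ (sh (i : ℤ) y)‖ ≤ ε * L := by
  choose b hb hb0 hrate using fun j =>
    Pool.Agent.Helper245.Sub.exists_rate (hw j) hXs (fun r v ε hε => hX j r v ε hε)
  obtain ⟨κ, hκ1, -, hκ3⟩ := diag (fun k N => ∀ j ≤ k, b j N ≤ (1 / 2) ^ k) (by
    intro k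
    have h1 : ∀ j ∈ range (k + 1), ∀ᶠ N in atTop, b j N ≤ (1 / 2) ^ k := fun j _ =>
      (hb0 j).eventually_le_const (by positivity)
    filter_upwards [(Filter.eventually_all_finset (range (k + 1))).2 h1] with N hN j hj
    exact hN j (by simp; omega))
  refine ⟨fun n => (1 / 2) ^ (κ n), fun n => by positivity,
    (tendsto_pow_atTop_nhds_zero_of_lt_one (by norm_num) (by norm_num)).comp hκ1, ?_⟩
  intro j Φ hΦ ε hε
  obtain ⟨n₀, hn₀⟩ := hrate j Φ hΦ ε hε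
  obtain ⟨n₁, hn₁⟩ := eventually_atTop.1 (hκ3.and (hκ1.eventually_ge_atTop j))
  refine ⟨max n₀ n₁, fun n hn L hL y hy => hn₀ n ((le_max_left _ _).trans hn) L ?_ y hy⟩
  obtain ⟨h1, h2⟩ := hn₁ n ((le_max_right _ _).trans hn)
  exact (mul_le_mul_of_nonneg_right (h1 j h2) (Nat.cast_nonneg _)).trans hL

end Pool.Agent.Y350.MD
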