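import Pool.Agent.Helper245.SubF

/-!
# Subshifts with a countable family of weights (author: helper350, after the files SubB, SubC, SubD,
SubE, SubF of Helper245, where there is one weight)
-/

set_option autoImplicit false

open Finset Filter Topology

namespace Pool.Agent.Y350.MD

open Pool.Agent.Helper245.Sub

section step

variable (T : Tests) (u : ℕ → ℕ → ℝ) (L : Lev) (k K R : ℕ) (e : ℝ)

/-- admissible concatenations -/
def Good (b : Fin K → Fin L.len → Bool) : Prop :=
  ∀ i < k, ∀ A < R, |∑ t : Fin K, ∑ m ∈ range L.len,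
    u i (A + t * L.len + m) * (T.f i (wd (b t) m) - cc T L i m)| ≤ e * (K * L.len)

open Classical in
/-- the set of good sequences of blocks -/
noncomputable def goods : Finset (Fin K → Fin L.len → Bool) :=
  {b ∈ Fintype.piFinset (fun _ : Fin K => L.B) | Good T u L k K R e b}

/-- the next level -/
noncomputable def step : Lev := ⟨K * L.len, (goods T u L k K R e).image cat⟩

variable {T u L k K R e}

lemma goods_subset : goods T u L k K R e ⊆ Fintype.piFinset (fun _ : Fin K => L.B) := by
  classical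
  exact filter_subset _ _

lemma card_one_bad (hu : ∀ i n, |u i n| ≤ 1) (hB : L.B.Nonempty) (hl : 0 < L.len) (he0 : 0 ≤ e)
    (he : e ≤ 4) (i A : ℕ) :
    (#{b ∈ Fintype.piFinset (fun _ : Fin K => L.B) | e * (K * L.len) < |∑ t : Fin K,
      ∑ m ∈ range L.len, u i (A + t * L.len + m) * (T.f i (wd (b t) m) - cc T L i m)|} : ℝ) ≤
      2 * Real.exp (-(e ^ 2 / 16 * K)) * (#L.B : ℝ) ^ K := by
  have hl' : (0 : ℝ) < L.len := by exact_mod_cast hl
  set Y : Fin K → (Fin L.len → Bool) → ℝ := fun t b =>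
    (∑ m ∈ range L.len, u i (A + t * L.len + m) * (T.f i (wd b m) - cc T L i m)) / (2 * L.len)
    with hYdef
  have hY : ∀ t, ∀ b ∈ L.B, |Y t b| ≤ 1 := by
    intro t b _
    simp only [hYdef]
    rw [abs_div, abs_of_pos (by positivity : (0:ℝ) < 2 * L.len), div_le_one (by positivity)]
    refine (abs_sum_le_sum_abs _ _).trans ?_
    have : ∀ m ∈ range L.len, |u i (A + t * L.len + m) * (T.f i (wd b m) - cc T L i m)| ≤ 2 := by
      intro m _
      rw [abs_mul]
      have h1 := hu i (A + t * L.len + m)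
      have h2 : |T.f i (wd b m) - cc T L i m| ≤ 2 := by
        refine (abs_sub _ _).trans ?_
        linarith [T.bd i (wd b m), abs_cc_le T L i m]
      calc _ ≤ 1 * 2 := mul_le_mul h1 h2 (abs_nonneg _) zero_le_one
        _ = 2 := by norm_num
    refine (sum_le_sum this).trans ?_
    simp [mul_comm]
  have h0 : ∀ t, ∑ b ∈ L.B, Y t b = 0 := by
    intro t
    simp only [hYdef]
    rw [← sum_div, sum_comm]
    rw [sum_eq_zero, zero_div]
    intro m _
    rw [← mul_sum, sum_centered hB, mul_zero]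
  have key := card_bad K L.B Y hY h0 (d := e / 2) (by positivity) (by linarith)
  have heq : ∀ b : Fin K → Fin L.len → Bool, (e * (K * L.len) < |∑ t : Fin K,
      ∑ m ∈ range L.len, u i (A + t * L.len + m) * (T.f i (wd (b t) m) - cc T L i m)|) ↔
      (e / 2 * K < |∑ t, Y t (b t)|) := by
    intro b
    simp only [hYdef]
    rw [← sum_div, abs_div, abs_of_pos (by positivity : (0:ℝ) < 2 * L.len),
      lt_div_iff₀ (by positivity)]
    constructor <;> intro h <;> linarith
  simp only [heq]
  refine key.trans (le_of_eq ?_)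
  congr 4
  ring

lemma card_goods (hu : ∀ i n, |u i n| ≤ 1) (hB : L.B.Nonempty) (hl : 0 < L.len) (he0 : 0 ≤ e)
    (he : e ≤ 4) :
    (1 - rho k K R e) * (#L.B : ℝ) ^ K ≤ #(goods T u L k K R e) := by
  classical
  have h1 : (Fintype.piFinset (fun _ : Fin K => L.B)) \ goods T u L k K R e ⊆
      (range k ×ˢ range R).biUnion (fun p =>
        {b ∈ Fintype.piFinset (fun _ : Fin K => L.B) | e * (K * L.len) < |∑ t : Fin K,
      ∑ m ∈ range L.len, u p.1 (p.2 + t * L.len + m) * (T.f p.1 (wd (b t) m) - cc T L p.1 m)|}) := by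
    intro b hb
    rw [Finset.mem_sdiff] at hb
    unfold goods at hb
    rw [mem_filter] at hb
    have h2 : ¬ Good T u L k K R e b := fun h => hb.2 ⟨hb.1, h⟩
    unfold Good at h2
    push Not at h2
    obtain ⟨i, hi, A, hA, h3⟩ := h2
    rw [mem_biUnion]
    refine ⟨(i, A), ?_, ?_⟩
    · simp [hi, hA]
    · rw [mem_filter]; exact ⟨hb.1, h3⟩
  have h2 : (#((Fintype.piFinset (fun _ : Fin K => L.B)) \ goods T u L k K R e) : ℝ) ≤
      rho k K R e * (#L.B : ℝ) ^ K := by
    have h3 := (card_le_card h1).trans card_biUnion_le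
    have h4 : (#((Fintype.piFinset (fun _ : Fin K => L.B)) \ goods T u L k K R e) : ℝ) ≤
        ∑ p ∈ range k ×ˢ range R, (#{b ∈ Fintype.piFinset (fun _ : Fin K => L.B) |
          e * (K * L.len) < |∑ t : Fin K, ∑ m ∈ range L.len,
          u p.1 (p.2 + t * L.len + m) * (T.f p.1 (wd (b t) m) - cc T L p.1 m)|} : ℝ) := by
      exact_mod_cast h3
    refine h4.trans ((sum_le_sum fun p _ => card_one_bad hu hB hl he0 he p.1 p.2).trans ?_)
    rw [sum_const, card_product, card_range, card_range, nsmul_eq_mul]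
    unfold rho
    push_cast
    exact le_of_eq (by ring)
  have h5 : (#((Fintype.piFinset (fun _ : Fin K => L.B)) \ goods T u L k K R e) : ℝ) =
      (#L.B : ℝ) ^ K - #(goods T u L k K R e) := by
    have hsub : goods T u L k K R e ⊆ Fintype.piFinset (fun _ : Fin K => L.B) := filter_subset _ _
    rw [card_sdiff_of_subset hsub, Nat.cast_sub (card_le_card hsub), Fintype.card_piFinset]
    simp
  rw [h5] at h2
  linarith

lemma step_len : (step T u L k K R e).len = K * L.len := rfl

lemma card_step : #(step T u L k K R e).B = #(goods T u L k K R e) := by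
  unfold step
  exact card_image_of_injective _ cat_injective

/-- comparison of averages between consecutive levels -/
lemma cc_step (hu : ∀ i n, |u i n| ≤ 1) (hB : L.B.Nonempty) (hl : 0 < L.len) (he0 : 0 ≤ e)
    (he : e ≤ 4) (hr : rho k K R e < 1) (i : ℕ) (t : Fin K) {m : ℕ} (hm : m + T.r i ≤ L.len) :
    |cc T (step T u L k K R e) i (t * L.len + m) - cc T L i m| ≤ 2 * rho k K R e := by
  have hc := card_goods (T := T) (k := k) (K := K) (R := R) hu hB hl he0 he
  have hBp : (0 : ℝ) < #L.B := by exact_mod_cast hB.card_pos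
  have hne : (goods T u L k K R e).Nonempty := by
    rw [← card_pos]
    have : (0 : ℝ) < #(goods T u L k K R e) := by
      refine lt_of_lt_of_le ?_ hc
      have : (0 : ℝ) < 1 - rho k K R e := by linarith
      positivity
    exact_mod_cast this
  have h1 : cc T (step T u L k K R e) i (t * L.len + m) =
      avg (goods T u L k K R e) (fun b => T.f i (wd (b t) m)) := by
    unfold cc avg
    rw [card_step]
    congr 1
    unfold step
    simp only
    rw [sum_image (fun _ _ _ _ h => cat_injective h)]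
    refine sum_congr rfl fun b _ => ?_
    apply T.loc
    intro j hj
    exact wd_cat b t (by omega)
  have h2 : cc T L i m = avg (Fintype.piFinset (fun _ : Fin K => L.B))
      (fun b => T.f i (wd (b t) m)) := by
    rw [avg_marginal K hB (fun b => T.f i (wd b m)) t]
    rfl
  rw [h1, h2]
  refine avg_sub_avg goods_subset (fun b => T.bd i _) ?_ hne
  rw [Fintype.card_piFinset]
  simpa using hc

end step

section hier

variable (T : Tests) (u : ℕ → ℕ → ℝ)

/-- the hierarchy -/
noncomputable def lev : ℕ → Lev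
  | 0 => ⟨1, univ⟩
  | k + 1 => step T u (lev k) k (KK k) (RR k) (ee k)

lemma lev_succ (k : ℕ) : lev T u (k + 1) = step T u (lev T u k) k (KK k) (RR k) (ee k) := rfl
lemma lev_len_zero : (lev T u 0).len = 1 := rfl
lemma lev_len_succ (k : ℕ) : (lev T u (k + 1)).len = KK k * (lev T u k).len := rfl

lemma lev_len_pos (k : ℕ) : 0 < (lev T u k).len := by
  induction k with
  | zero => rw [lev_len_zero]; norm_num
  | succ n ih => rw [lev_len_succ]; exact Nat.mul_pos (KK_pos n) ih

lemma lev_len_le (k : ℕ) : (lev T u k).len ≤ 16 ^ ((k + 10) ^ 2) := by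
  induction k with
  | zero => rw [lev_len_zero]; exact Nat.one_le_pow _ _ (by norm_num)
  | succ n ih =>
    rw [lev_len_succ]
    unfold KK
    calc 16 ^ (n + 10) * (lev T u n).len ≤ 16 ^ (n + 10) * 16 ^ ((n + 10) ^ 2) := by gcongr
      _ = 16 ^ (n + 10 + (n + 10) ^ 2) := (pow_add _ _ _).symm
      _ ≤ 16 ^ ((n + 1 + 10) ^ 2) := by
        refine Nat.pow_le_pow_right (by norm_num) ?_
        nlinarith

lemma le_lev_len (k : ℕ) : 2 ^ k ≤ (lev T u k).len := by
  induction k with
  | zero => rw [lev_len_zero]; norm_num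
  | succ n ih =>
    rw [lev_len_succ, pow_succ, mul_comm]
    refine Nat.mul_le_mul ?_ ih
    unfold KK
    calc 2 ≤ 16 ^ 1 := by norm_num
      _ ≤ 16 ^ (n + 10) := Nat.pow_le_pow_right (by norm_num) (by omega)

lemma lev_len_dvd {j k : ℕ} (h : j ≤ k) : (lev T u j).len ∣ (lev T u k).len := by
  induction k, h using Nat.le_induction with
  | base => exact dvd_rfl
  | succ n _ ih => rw [lev_len_succ]; exact ih.mul_left _

variable {T u}

lemma lev_card (hu : ∀ i n, |u i n| ≤ 1) (k : ℕ) : (lev T u k).B.Nonempty ∧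
    ((lev T u k).len : ℝ) * (2 / 5 + (1 / 2) ^ k / 4) ≤ Real.log #(lev T u k).B := by
  induction k with
  | zero =>
    refine ⟨Finset.univ_nonempty, ?_⟩
    have h1 : #(lev T u 0).B = 2 := by
      show Fintype.card (Fin 1 → Bool) = 2
      simp
    rw [h1, lev_len_zero]
    have := Real.log_two_gt_d9
    norm_num at this ⊢
    linarith
  | succ n ih =>
    obtain ⟨hne, hlog⟩ := ih
    have hr := rho_le n
    have hr2 : rho n (KK n) (RR n) (ee n) ≤ 1 / 16 := by
      refine hr.trans ?_
      have : (1 / 2 : ℝ) ^ (n + 4) ≤ (1 / 2) ^ 4 :=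
        pow_le_pow_of_le_one (by norm_num) (by norm_num) (by omega)
      refine this.trans (by norm_num)
    have hc := card_goods (T := T) (k := n) (K := KK n) (R := RR n) hu hne (lev_len_pos T u n)
      (ee_pos n).le (by linarith [ee_le n])
    have hBp : (0 : ℝ) < #(lev T u n).B := by exact_mod_cast hne.card_pos
    have hcard : #(lev T u (n + 1)).B = #(goods T u (lev T u n) n (KK n) (RR n) (ee n)) := card_step
    have hpos : (0 : ℝ) < (1 - rho n (KK n) (RR n) (ee n)) * (#(lev T u n).B : ℝ) ^ (KK n) := by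
      have : (0 : ℝ) < 1 - rho n (KK n) (RR n) (ee n) := by linarith
      positivity
    have hgp : (0 : ℝ) < #(lev T u (n + 1)).B := by rw [hcard]; exact hpos.trans_le hc
    refine ⟨by rw [← card_pos]; exact_mod_cast hgp, ?_⟩
    have h1 : Real.log ((1 - rho n (KK n) (RR n) (ee n)) * (#(lev T u n).B : ℝ) ^ (KK n)) ≤
        Real.log #(lev T u (n + 1)).B := by
      rw [hcard]; exact Real.log_le_log hpos hc
    rw [Real.log_mul (by linarith) (by positivity), Real.log_pow] at h1
    have h2 : -(2 * (1 / 2) ^ (n + 4)) ≤ Real.log (1 - rho n (KK n) (RR n) (ee n)) := by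
      have h3 : 1 - (1 - rho n (KK n) (RR n) (ee n))⁻¹ ≤ Real.log (1 - rho n (KK n) (RR n) (ee n)) :=
        Real.one_sub_inv_le_log_of_pos (by linarith)
      refine le_trans ?_ h3
      have h4 : (1 - rho n (KK n) (RR n) (ee n))⁻¹ ≤ 1 + 2 * (1 / 2) ^ (n + 4) := by
        rw [inv_le_comm₀ (by linarith) (by positivity)]
        rw [inv_le_iff_one_le_mul₀ (by positivity)]
        have h5 : (0 : ℝ) < (1 / 2) ^ (n + 4) := by positivity
        have h6 : (1 / 2 : ℝ) ^ (n + 4) ≤ 1 / 16 := by
          have : (1 / 2 : ℝ) ^ (n + 4) ≤ (1 / 2) ^ 4 :=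
            pow_le_pow_of_le_one (by norm_num) (by norm_num) (by omega)
          refine this.trans (by norm_num)
        nlinarith
      linarith
    have hl1 : (1 : ℝ) ≤ (lev T u (n + 1)).len := by exact_mod_cast lev_len_pos T u (n + 1)
    have hlen : ((lev T u (n + 1)).len : ℝ) = KK n * (lev T u n).len := by
      rw [lev_len_succ]; push_cast; rfl
    have h7 : (KK n : ℝ) * ((lev T u n).len * (2 / 5 + (1 / 2) ^ n / 4)) ≤
        KK n * Real.log #(lev T u n).B := by gcongr
    have h8 : (1 / 2 : ℝ) ^ (n + 4) = (1 / 2) ^ n / 16 := by rw [pow_add]; norm_num; ring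
    have h9 : (1 / 2 : ℝ) ^ (n + 1) = (1 / 2) ^ n / 2 := by rw [pow_succ]; ring
    rw [h8] at h2
    rw [h9]
    have h10 : (0 : ℝ) < (1 / 2) ^ n := by positivity
    have h11 : ((lev T u (n + 1)).len : ℝ) * (2 / 5 + (1 / 2) ^ n / 2 / 4) ≤
        (lev T u (n + 1)).len * (2 / 5 + (1 / 2) ^ n / 4) - (1 / 2) ^ n / 8 := by
      nlinarith
    have h12 : (KK n : ℝ) * ((lev T u n).len * (2 / 5 + (1 / 2) ^ n / 4)) =
        (lev T u (n + 1)).len * (2 / 5 + (1 / 2) ^ n / 4) := by rw [hlen]; ring
    linarith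

/-- the averages stabilise -/
lemma cc_tel (hu : ∀ i n, |u i n| ≤ 1) {j k : ℕ} (hjk : j ≤ k) (i : ℕ) : ∀ n < (lev T u k).len,
    n % (lev T u j).len + T.r i ≤ (lev T u j).len →
    |cc T (lev T u k) i n - cc T (lev T u j) i (n % (lev T u j).len)| ≤
      (1 / 2) ^ (j + 2) - (1 / 2) ^ (k + 2) := by
  induction k, hjk using Nat.le_induction with
  | base =>
    intro n hn _
    rw [Nat.mod_eq_of_lt hn]
    simp
  | succ k hjk ih =>
    intro n hn hr
    set l := (lev T u k).len with hl
    have hlpos : 0 < l := lev_len_pos T u k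
    have hdvd : (lev T u j).len ∣ l := lev_len_dvd T u hjk
    have hn' : n < KK k * l := hn
    have ht : n / l < KK k := (Nat.div_lt_iff_lt_mul hlpos).2 hn'
    have hm : n % l < l := Nat.mod_lt _ hlpos
    have hmod : (n % l) % (lev T u j).len = n % (lev T u j).len := Nat.mod_mod_of_dvd n hdvd
    have hml : n % l + T.r i ≤ l := by
      obtain ⟨d, hd⟩ := hdvd
      have hjp := lev_len_pos T u j
      have h1 := Nat.div_add_mod (n % l) (lev T u j).len
      have h2 : (n % l) / (lev T u j).len < d := by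
        rw [Nat.div_lt_iff_lt_mul hjp, mul_comm, ← hd]; exact hm
      rw [hmod] at h1
      have h3 : (lev T u j).len * ((n % l) / (lev T u j).len + 1) ≤ (lev T u j).len * d :=
        Nat.mul_le_mul_left _ h2
      rw [← hd] at h3
      calc n % l + T.r i = (lev T u j).len * ((n % l) / (lev T u j).len) +
            (n % (lev T u j).len + T.r i) := by omega
        _ ≤ (lev T u j).len * ((n % l) / (lev T u j).len) + (lev T u j).len := by omega
        _ = (lev T u j).len * ((n % l) / (lev T u j).len + 1) := by ring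
        _ ≤ l := h3
    have h1 := cc_step (T := T) (u := u) (L := lev T u k) (k := k) (K := KK k) (R := RR k) hu
      (lev_card hu k).1 hlpos (ee_pos k).le (by linarith [ee_le k]) (rho_lt_one k) i ⟨n / l, ht⟩ hml
    have h2 := ih (n % l) hm (by rw [hmod]; exact hr)
    rw [hmod] at h2
    have h3 : (⟨n / l, ht⟩ : Fin (KK k)).val * l + n % l = n := by
      simp only
      rw [mul_comm]; exact Nat.div_add_mod n l
    rw [← hl, h3] at h1
    have h4 : cc T (lev T u (k + 1)) i n =
        cc T (step T u (lev T u k) k (KK k) (RR k) (ee k)) i n := rfl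
    rw [h4]
    have h5 := rho_le k
    have h6 : (1 / 2 : ℝ) ^ (k + 4) = (1 / 2) ^ (k + 2) / 4 := by
      rw [show k + 4 = (k + 2) + 2 by ring, pow_add]; norm_num; ring
    have h7 : (1 / 2 : ℝ) ^ (k + 1 + 2) = (1 / 2) ^ (k + 2) / 2 := by
      rw [show k + 1 + 2 = (k + 2) + 1 by ring, pow_succ]; ring
    rw [h7]
    rw [h6] at h5
    have h8 := abs_sub_le (cc T (step T u (lev T u k) k (KK k) (RR k) (ee k)) i n)
      (cc T (lev T u k) i (n % l)) (cc T (lev T u j) i (n % (lev T u j).len))
    linarith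

end hier

attribute [local irreducible] KK RR ee lev

section est

variable (T : Tests) (u : ℕ → ℕ → ℝ)

/-- `x` is a concatenation of blocks of level `k` with phase `p` -/
def Par (k : ℕ) (x : ℤ → Bool) (p : ℤ) : Prop :=
  ∀ a : ℤ, ((lev T u k).len : ℤ) ∣ a - p → blk x a (lev T u k).len ∈ (lev T u k).B

variable {T u}

lemma par_split {k : ℕ} {x : ℤ → Bool} {a : ℤ}
    (h : blk x a (lev T u (k + 1)).len ∈ (lev T u (k + 1)).B) :
    ∃ b ∈ goods T u (lev T u k) k (KK k) (RR k) (ee k),
      ∀ t : Fin (KK k), blk x (a + t * (lev T u k).len) (lev T u k).len = b t := by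
  rw [lev_succ] at h
  have h1 : blk x a (KK k * (lev T u k).len) ∈
      (goods T u (lev T u k) k (KK k) (RR k) (ee k)).image cat := h
  rw [mem_image] at h1
  obtain ⟨b, hb, hbx⟩ := h1
  exact ⟨b, hb, fun t => blk_cat hbx.symm t⟩

lemma par_anti {k : ℕ} {x : ℤ → Bool} {p : ℤ} (h : Par T u (k + 1) x p) : Par T u k x p := by
  intro a ha
  have hlp := lev_len_pos T u k
  have hKp := KK_pos k
  obtain ⟨c, hc⟩ := ha
  set K : ℤ := (KK k : ℤ) with hK
  have hK0 : 0 < K := by rw [hK]; exact_mod_cast hKp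
  have h1 : c % K + K * (c / K) = c := Int.emod_add_mul_ediv c K
  have h2 : 0 ≤ c % K := Int.emod_nonneg c hK0.ne'
  have h3 : c % K < K := Int.emod_lt_of_pos c hK0
  have h4 : ((lev T u (k + 1)).len : ℤ) ∣ (a - (c % K) * (lev T u k).len) - p := by
    refine ⟨c / K, ?_⟩
    rw [lev_len_succ]
    push_cast
    have : a - c % K * (lev T u k).len - p = (lev T u k).len * (c - c % K) := by
      linear_combination hc
    rw [this]
    have h5 : c - c % K = K * (c / K) := by linarith
    rw [h5]; ring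
  obtain ⟨b, hb, hbt⟩ := par_split (h _ h4)
  have ht : (c % K).toNat < KK k := by omega
  have h5 := hbt ⟨(c % K).toNat, ht⟩
  have h6 : a - c % K * (lev T u k).len + ((⟨(c % K).toNat, ht⟩ : Fin (KK k)).val : ℤ) *
      (lev T u k).len = a := by
    simp only
    rw [Int.toNat_of_nonneg h2]; ring
  rw [h6] at h5
  rw [h5]
  have h7 := goods_subset hb
  rw [Fintype.mem_piFinset] at h7
  exact h7 _

lemma par_le {j k : ℕ} (hjk : j ≤ k) {x : ℤ → Bool} {p : ℤ} (h : Par T u k x p) :
    Par T u j x p := by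
  induction k, hjk using Nat.le_induction with
  | base => exact h
  | succ n _ ih => exact ih (par_anti h)

/-- one complete block -/
lemma one_block (hu : ∀ i n, |u i n| ≤ 1) {k : ℕ} {x : ℤ → Bool} {p : ℤ} {a : ℕ}
    (ha : ((lev T u (k + 1)).len : ℤ) ∣ (a : ℤ) - p)
    (hx : blk x a (lev T u (k + 1)).len ∈ (lev T u (k + 1)).B) {i : ℕ} (hi : i < k)
    (haR : a < RR k) :
    |∑ j ∈ range (lev T u (k + 1)).len, u i (a + j) * (T.f i (sf x ((a + j : ℕ) : ℤ)) -
      cc T (lev T u k) i (ps p (lev T u k).len (a + j)))| ≤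
      ee k * (KK k * (lev T u k).len) + KK k * (2 * T.r i) := by
  set l := (lev T u k).len with hl
  have hlp : 0 < l := lev_len_pos T u k
  obtain ⟨b, hb, hbt⟩ := par_split hx
  have hgood : Good T u (lev T u k) k (KK k) (RR k) (ee k) b := by
    classical
    unfold goods at hb
    exact (mem_filter.1 hb).2
  have h1 := hgood i hi a haR
  rw [lev_len_succ, ← hl, sum_range_mul' (fun j => u i (a + j) * (T.f i (sf x ((a + j : ℕ) : ℤ)) -
      cc T (lev T u k) i (ps p l (a + j)))) (KK k) l]
  have hdiv : ∀ t : Fin (KK k), (l : ℤ) ∣ ((a + t * l : ℕ) : ℤ) - p := by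
    intro t
    have h2 : (l : ℤ) ∣ (a : ℤ) - p := by
      refine dvd_trans ?_ ha
      rw [lev_len_succ]
      push_cast
      exact dvd_mul_left _ _
    obtain ⟨c, hc⟩ := h2
    refine ⟨c + t, ?_⟩
    push_cast
    linear_combination hc
  have h2 : ∀ t : Fin (KK k), ∀ m ∈ range l,
      u i (a + (t * l + m)) * (T.f i (sf x ((a + (t * l + m) : ℕ) : ℤ)) -
        cc T (lev T u k) i (ps p l (a + (t * l + m)))) =
      u i (a + t * l + m) * (T.f i (wd (b t) m) - cc T (lev T u k) i m) +
      u i (a + t * l + m) * (T.f i (sf x ((a + (t * l + m) : ℕ) : ℤ)) - T.f i (wd (b t) m)) := by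
    intro t m hm
    rw [← add_assoc a, ps_eq hlp (hdiv t) (mem_range.1 hm)]
    ring
  rw [sum_congr rfl fun t _ => sum_congr rfl (h2 t)]
  simp only [sum_add_distrib]
  refine (abs_add_le _ _).trans (add_le_add h1 ?_)
  refine (abs_sum_le_sum_abs _ _).trans ?_
  have h3 : ∀ t : Fin (KK k), |∑ m ∈ range l, u i (a + t * l + m) *
      (T.f i (sf x ((a + (t * l + m) : ℕ) : ℤ)) - T.f i (wd (b t) m))| ≤ 2 * T.r i := by
    intro t
    refine (abs_sum_le_sum_abs _ _).trans ?_
    have h4 : ∀ m ∈ range l, |u i (a + t * l + m) *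
      (T.f i (sf x ((a + (t * l + m) : ℕ) : ℤ)) - T.f i (wd (b t) m))| ≤
        if ¬ (m + T.r i ≤ l) then 2 else 0 := by
      intro m hm
      by_cases h5 : ¬ (m + T.r i ≤ l)
      · rw [if_pos h5, abs_mul]
        have h6 := hu i (a + t * l + m)
        have h7 : |T.f i (sf x ((a + (t * l + m) : ℕ) : ℤ)) - T.f i (wd (b t) m)| ≤ 2 := by
          refine (abs_sub _ _).trans ?_
          linarith [T.bd i (sf x ((a + (t * l + m) : ℕ) : ℤ)), T.bd i (wd (b t) m)]
        calc _ ≤ 1 * 2 := mul_le_mul h6 h7 (abs_nonneg _) zero_le_one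
          _ = 2 := by norm_num
      · rw [if_neg h5]
        push Not at h5
        have h6 : T.f i (sf x ((a + (t * l + m) : ℕ) : ℤ)) = T.f i (wd (b t) m) := by
          apply T.loc
          intro j hj
          have h7 := sf_blk (hbt t) (m := m) (i := j) (by omega)
          rw [← h7]
          congr 1
          push_cast
          ring
        rw [h6, sub_self, mul_zero, abs_zero]
    refine (sum_le_sum h4).trans ?_
    rw [← sum_filter, sum_const, nsmul_eq_mul]
    have := card_tail l (T.r i)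
    linarith
  refine (sum_le_sum fun t _ => h3 t).trans ?_
  simp

lemma est_one (hu : ∀ i n, |u i n| ≤ 1) {k : ℕ} {x : ℤ → Bool} {p : ℤ} (hx : Par T u (k + 1) x p)
    {i : ℕ} (hi : i < k) {N : ℕ} (hN : N ≤ RR k) :
    |∑ n ∈ range N, u i n * (T.f i (sf x (n : ℤ)) -
      cc T (lev T u k) i (ps p (lev T u k).len n))| ≤
      N * (ee k + 2 * T.r i / (lev T u k).len) + 4 * (lev T u (k + 1)).len := by
  set l := (lev T u k).len with hl
  have hlp : 0 < l := lev_len_pos T u k
  set L := (lev T u (k + 1)).len with hL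
  have hLp : 0 < L := lev_len_pos T u (k + 1)
  have hLK : (L : ℝ) = KK k * l := by rw [hL, lev_len_succ]; push_cast; rfl
  obtain ⟨p', hp', hdiv⟩ := exists_phase p hLp
  have hC : ∀ n, |u i n * (T.f i (sf x (n : ℤ)) - cc T (lev T u k) i (ps p l n))| ≤ 2 := by
    intro n
    rw [abs_mul]
    have h7 : |T.f i (sf x (n : ℤ)) - cc T (lev T u k) i (ps p l n)| ≤ 2 := by
      refine (abs_sub _ _).trans ?_
      linarith [T.bd i (sf x (n : ℤ)), abs_cc_le T (lev T u k) i (ps p l n)]
    calc _ ≤ 1 * 2 := mul_le_mul (hu i n) h7 (abs_nonneg _) zero_le_one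
      _ = 2 := by norm_num
  have h1 := block_sum hC (L := L) (p := p') (N := N) (E := ee k * (KK k * l) + KK k * (2 * T.r i))
    hLp hp' (by have := ee_pos k; positivity) (by
      intro s hs
      have h2 := one_block hu (hdiv s) (hx _ (hdiv s)) hi (by omega)
      exact h2)
  refine h1.trans ?_
  have hl' : (0 : ℝ) < l := by exact_mod_cast hlp
  have hK' : (0 : ℝ) < KK k := by exact_mod_cast KK_pos k
  have h3 : (N : ℝ) / L * (ee k * (KK k * l) + KK k * (2 * T.r i)) =
      N * (ee k + 2 * T.r i / l) := by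
    rw [hLK]
    field_simp
  rw [h3]
  linarith

lemma est_two (hu : ∀ i n, |u i n| ≤ 1) {j k : ℕ} (hjk : j ≤ k) (p : ℤ) (i N : ℕ) :
    |∑ n ∈ range N, u i n * (cc T (lev T u k) i (ps p (lev T u k).len n) -
      cc T (lev T u j) i (ps p (lev T u j).len n))| ≤
      N * ((1 / 2) ^ (j + 2) + 2 * T.r i / (lev T u j).len) + 4 * (lev T u j).len := by
  set l := (lev T u j).len with hl
  have hlp : 0 < l := lev_len_pos T u j
  have hlp' : (0 : ℝ) < l := by exact_mod_cast hlp
  obtain ⟨p', hp', hdiv⟩ := exists_phase p hlp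
  set g : ℕ → ℝ := fun n => if ps p l n + T.r i ≤ l then 0 else 2 with hg
  have h1 : ∀ n ∈ range N, |u i n * (cc T (lev T u k) i (ps p (lev T u k).len n) -
      cc T (lev T u j) i (ps p l n))| ≤ (1 / 2) ^ (j + 2) + g n := by
    intro n _
    rw [abs_mul]
    have h2 : |cc T (lev T u k) i (ps p (lev T u k).len n) - cc T (lev T u j) i (ps p l n)| ≤
        (1 / 2) ^ (j + 2) + g n := by
      by_cases h3 : ps p l n + T.r i ≤ l
      · simp only [hg, if_pos h3, add_zero]
        have hmod := ps_mod p hlp (lev_len_pos T u k) (lev_len_dvd T u hjk) n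
        have h4 := cc_tel (T := T) hu hjk i (ps p (lev T u k).len n) (ps_lt p (lev_len_pos T u k) n)
          (by rw [hmod]; exact h3)
        rw [hmod] at h4
        have h5 : (0 : ℝ) < (1 / 2) ^ (k + 2) := by positivity
        linarith
      · simp only [hg, if_neg h3]
        refine (abs_sub _ _).trans ?_
        have h5 : (0 : ℝ) < (1 / 2) ^ (j + 2) := by positivity
        linarith [abs_cc_le T (lev T u k) i (ps p (lev T u k).len n),
          abs_cc_le T (lev T u j) i (ps p l n)]
    calc _ ≤ 1 * ((1 / 2) ^ (j + 2) + g n) := mul_le_mul (hu i n) h2 (abs_nonneg _) zero_le_one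
      _ = _ := one_mul _
  have hgC : ∀ n, |g n| ≤ 2 := by
    intro n
    simp only [hg]
    split_ifs <;> norm_num
  have h2 := block_sum hgC (L := l) (p := p') (N := N) (E := 2 * T.r i) hlp hp' (by positivity) (by
    intro s _
    have h3 : ∀ m ∈ range l, g (p' + s * l + m) = if ¬ (m + T.r i ≤ l) then 2 else 0 := by
      intro m hm
      simp only [hg]
      rw [ps_eq hlp (hdiv s) (mem_range.1 hm)]
      split_ifs <;> simp_all
    rw [sum_congr rfl h3, ← sum_filter, sum_const, nsmul_eq_mul]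
    have := card_tail l (T.r i)
    rw [abs_of_nonneg (by positivity)]
    linarith)
  refine (abs_sum_le_sum_abs _ _).trans ((sum_le_sum h1).trans ?_)
  rw [sum_add_distrib, sum_const, card_range, nsmul_eq_mul]
  have h3 := le_trans (le_abs_self _) h2
  have h4 : (N : ℝ) / l * (2 * T.r i) = N * (2 * T.r i / l) := by ring
  rw [h4] at h3
  linarith

lemma est_three {j : ℕ} {N : ℕ} {d : ℝ} (p : ℤ) (i : ℕ)
    (hd : ∀ a < (lev T u j).len, |∑ n ∈ range N, if n % (lev T u j).len = a then u i n else 0| ≤ d) :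
    |∑ n ∈ range N, u i n * cc T (lev T u j) i (ps p (lev T u j).len n)| ≤
      (lev T u j).len * d := by
  set l := (lev T u j).len with hl
  have hlp : 0 < l := lev_len_pos T u j
  have h1 : ∑ n ∈ range N, u i n * cc T (lev T u j) i (ps p l n) =
      ∑ m ∈ range l, cc T (lev T u j) i m * ∑ n ∈ range N, if ps p l n = m then u i n else 0 := by
    simp_rw [mul_sum]
    rw [sum_comm]
    refine sum_congr rfl fun n _ => ?_
    rw [sum_eq_single_of_mem (ps p l n) (mem_range.2 (ps_lt p hlp n))]
    · rw [if_pos rfl, mul_comm]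
    · intro m _ hm
      rw [if_neg (Ne.symm hm), mul_zero]
  rw [h1]
  refine (abs_sum_le_sum_abs _ _).trans ?_
  have h2 : ∀ m ∈ range l, |cc T (lev T u j) i m * ∑ n ∈ range N,
      if ps p l n = m then u i n else 0| ≤ d := by
    intro m hm
    rw [abs_mul]
    have hm' := mem_range.1 hm
    have hnn : 0 ≤ ((m : ℤ) + p) % (l : ℤ) := Int.emod_nonneg _ (by omega)
    have hlt : ((m : ℤ) + p) % (l : ℤ) < l := Int.emod_lt_of_pos _ (by omega)
    have h3 : ∀ n : ℕ, ps p l n = m ↔ n % l = (((m : ℤ) + p) % (l : ℤ)).toNat := by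
      intro n
      have h4 := ps_cast p hlp n
      have h5 : (ps p l n = m) ↔ ((n : ℤ) - p) % (l : ℤ) = (m : ℤ) % (l : ℤ) := by
        rw [← h4, Int.emod_eq_of_lt (by omega : (0:ℤ) ≤ m) (by omega : (m : ℤ) < l)]
        omega
      have h6 : (n % l = (((m : ℤ) + p) % (l : ℤ)).toNat) ↔
          (n : ℤ) % (l : ℤ) = ((m : ℤ) + p) % (l : ℤ) := by
        constructor
        · intro h
          have : ((n % l : ℕ) : ℤ) = ((m : ℤ) + p) % (l : ℤ) := by
            rw [h, Int.toNat_of_nonneg hnn]
          rw [← this]; push_cast; rfl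
        · intro h
          have : ((n % l : ℕ) : ℤ) = ((m : ℤ) + p) % (l : ℤ) := by
            rw [← h]; push_cast; rfl
          omega
      rw [h5, h6, Int.emod_eq_emod_iff_emod_sub_eq_zero, Int.emod_eq_emod_iff_emod_sub_eq_zero]
      rw [show (n : ℤ) - p - m = n - (m + p) by ring]
    have h4 : ∑ n ∈ range N, (if ps p l n = m then u i n else 0) =
        ∑ n ∈ range N, (if n % l = (((m : ℤ) + p) % (l : ℤ)).toNat then u i n else 0) :=
      sum_congr rfl fun n _ => by simp only [h3 n]
    rw [h4]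
    have h5 := hd ((((m : ℤ) + p) % (l : ℤ)).toNat) (by omega)
    have hd0 : 0 ≤ d := (abs_nonneg _).trans h5
    calc _ ≤ 1 * d := mul_le_mul (abs_cc_le T _ _ _) h5 (abs_nonneg _) zero_le_one
      _ = d := one_mul _
  refine (sum_le_sum h2).trans ?_
  simp

end est



variable (T : Tests) (u : ℕ → ℕ → ℝ)

/-- points which parse at level `k` -/
def XL (k : ℕ) : Set (ℤ → Bool) := {x | ∃ p, Par T u k x p}

/-- the subshift -/
def XX : Set (ℤ → Bool) := {x | ∀ k, x ∈ XL T u k}

variable {T u}

lemma XL_anti {j k : ℕ} (h : j ≤ k) : XL T u k ⊆ XL T u j := fun _ ⟨p, hp⟩ => ⟨p, par_le h hp⟩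

lemma par_shift {k : ℕ} {x : ℤ → Bool} {p : ℤ} (h : Par T u k x p) (c : ℤ) :
    Par T u k (fun i => x (i + c)) (p - c) := by
  intro a ha
  have h1 := h (a + c) (by
    obtain ⟨d, hd⟩ := ha
    exact ⟨d, by linarith⟩)
  have h2 : blk (fun i => x (i + c)) a (lev T u k).len = blk x (a + c) (lev T u k).len := by
    funext m
    unfold blk
    simp only
    congr 1
    ring
  rw [h2]; exact h1

lemma XL_shift {k : ℕ} {x : ℤ → Bool} (h : x ∈ XL T u k) (c : ℤ) :
    (fun i => x (i + c)) ∈ XL T u k := by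
  obtain ⟨p, hp⟩ := h
  exact ⟨p - c, par_shift hp c⟩

lemma XX_shift {x : ℤ → Bool} (h : x ∈ XX T u) (c : ℤ) : (fun i => x (i + c)) ∈ XX T u :=
  fun k => XL_shift (h k) c

lemma isClosed_par (k : ℕ) (p : ℤ) : IsClosed {x | Par T u k x p} := by
  have : {x | Par T u k x p} = ⋂ a : ℤ, ⋂ _ : ((lev T u k).len : ℤ) ∣ a - p,
      {x | blk x a (lev T u k).len ∈ (lev T u k).B} := by
    ext x
    simp [Par]
  rw [this]
  refine isClosed_iInter fun a => isClosed_iInter fun _ => ?_
  exact (isClosed_discrete (((lev T u k).B : Finset _) : Set (Fin (lev T u k).len → Bool))).preimage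
    (continuous_blk a _)

lemma isClosed_XL (k : ℕ) : IsClosed (XL T u k) := by
  have hlp := lev_len_pos T u k
  have : XL T u k = ⋃ p ∈ Finset.range (lev T u k).len, {x | Par T u k x (p : ℕ)} := by
    ext x
    simp only [Set.mem_iUnion, Finset.mem_range]
    constructor
    · rintro ⟨p, hp⟩
      refine ⟨(p % ((lev T u k).len : ℤ)).toNat, ?_, ?_⟩
      · have := Int.emod_lt_of_pos p (by omega : (0:ℤ) < (lev T u k).len)
        have := Int.emod_nonneg p (by omega : ((lev T u k).len : ℤ) ≠ 0)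
        omega
      · intro a ha
        apply hp
        rw [Int.toNat_of_nonneg (Int.emod_nonneg _ (by omega))] at ha
        obtain ⟨c, hc⟩ := ha
        have h2 := Int.emod_add_mul_ediv p ((lev T u k).len : ℤ)
        refine ⟨c - p / (lev T u k).len, ?_⟩
        rw [mul_sub]
        linarith
    · rintro ⟨p, _, hp⟩
      exact ⟨p, hp⟩
  rw [this]
  exact Set.Finite.isClosed_biUnion (Finset.finite_toSet _) fun p _ => isClosed_par k p

lemma isClosed_XX : IsClosed (XX T u) := by
  have : XX T u = ⋂ k, XL T u k := by ext x; simp [XX]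
  rw [this]
  exact isClosed_iInter fun k => isClosed_XL k

lemma len_RR (k : ℕ) : 4 * ((lev T u (k + 2)).len : ℝ) ≤ ee (k + 1) * RR k := by
  have h1 : ((lev T u (k + 2)).len : ℝ) ≤ 16 ^ ((k + 12) ^ 2) := by
    exact_mod_cast lev_len_le T u (k + 2)
  unfold ee RR
  rw [one_div_pow, one_div, inv_mul_eq_div, le_div_iff₀ (by positivity)]
  push_cast
  have h2 : (2 : ℝ) ^ (k + 1 + 10) ≤ 16 ^ (k + 11) :=
    pow_le_pow_left₀ (by norm_num) (by norm_num) _
  have h3 : (4 : ℝ) ≤ 16 ^ 1 := by norm_num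
  calc 4 * ((lev T u (k + 2)).len : ℝ) * 2 ^ (k + 1 + 10)
      ≤ 16 ^ 1 * 16 ^ ((k + 12) ^ 2) * 16 ^ (k + 11) := by gcongr
    _ = 16 ^ (1 + (k + 12) ^ 2 + (k + 11)) :=
        (fun A : ℕ => (by ring : (16:ℝ) ^ 1 * 16 ^ A * 16 ^ (k + 11) = 16 ^ (1 + A + (k + 11)))) _
    _ ≤ 16 ^ ((k + 14) ^ 2) := by
        refine pow_le_pow_right₀ (by norm_num) ?_
        nlinarith

/-- the uniform estimate -/
theorem uniform_est (hu : ∀ i n, |u i n| ≤ 1)
    (hap : ∀ i q a : ℕ, 0 < q → Tendsto (fun N : ℕ => (∑ n ∈ range N, if n % q = a then u i n else 0) / N)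
      atTop (𝓝 0)) (i : ℕ) {ε : ℝ} (hε : 0 < ε) :
    ∃ N₀ : ℕ, ∀ N ≥ N₀, ∀ x ∈ XX T u, |∑ n ∈ range N, u i n * T.f i (sf x (n : ℤ))| ≤ ε * N := by
  -- choice of the level j
  obtain ⟨j, hj1, hj2, hj3⟩ : ∃ j : ℕ, i < j ∧ (1 / 2 : ℝ) ^ (j + 2) ≤ ε / 8 ∧
      2 * (T.r i : ℝ) / 2 ^ j ≤ ε / 8 := by
    have h1 : Tendsto (fun j : ℕ => (1 / 2 : ℝ) ^ (j + 2)) atTop (𝓝 0) :=
      (tendsto_pow_atTop_nhds_zero_of_lt_one (by norm_num) (by norm_num)).comp
        (tendsto_add_atTop_nat 2)
    have h2 : Tendsto (fun j : ℕ => 2 * (T.r i : ℝ) / 2 ^ j) atTop (𝓝 0) :=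
      Tendsto.div_atTop tendsto_const_nhds (tendsto_pow_atTop_atTop_of_one_lt (by norm_num))
    have h3 := (eventually_gt_atTop i).and ((h1.eventually_le_const (by positivity : (0:ℝ) < ε / 8)).and
      (h2.eventually_le_const (by positivity : (0:ℝ) < ε / 8)))
    exact h3.exists
  set l := (lev T u j).len with hl
  have hlp : 0 < l := lev_len_pos T u j
  have hl' : (0 : ℝ) < l := by exact_mod_cast hlp
  -- the progressions modulo l
  have h1 : ∀ᶠ N : ℕ in atTop, ∀ a < l, |∑ n ∈ range N, if n % l = a then u i n else 0| ≤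
      ε / (4 * l) * N := by
    rw [← Nat.cofinite_eq_atTop]
    have : ∀ a ∈ Finset.range l, ∀ᶠ N : ℕ in atTop,
        |∑ n ∈ range N, if n % l = a then u i n else 0| ≤ ε / (4 * l) * N := by
      intro a _
      have h2 := (hap i l a hlp)
      have h3 := (tendsto_zero_iff_abs_tendsto_zero _).1 h2
      have h4 := h3.eventually_le_const (by positivity : (0:ℝ) < ε / (4 * l))
      filter_upwards [h4, eventually_gt_atTop 0] with N hN hN0
      have hN0' : (0 : ℝ) < N := by exact_mod_cast hN0
      simp only [Function.comp] at hN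
      rw [abs_div, abs_of_pos hN0', div_le_iff₀ hN0'] at hN
      exact hN
    rw [Nat.cofinite_eq_atTop]
    have h2 := (Filter.eventually_all_finset (Finset.range l)).2 this
    filter_upwards [h2] with N hN a ha using hN a (Finset.mem_range.2 ha)
  obtain ⟨N₁, hN₁⟩ := eventually_atTop.1 h1
  obtain ⟨N₂, hN₂⟩ := exists_nat_ge (4 * l * 8 / ε)
  refine ⟨max (RR j + 1) (max N₁ N₂), fun N hN x hx => ?_⟩
  have hNR : RR j < N := lt_of_lt_of_le (Nat.lt_succ_self _) ((le_max_left _ _).trans hN)
  have hN1 : N₁ ≤ N := ((le_max_left _ _).trans (le_max_right _ _)).trans hN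
  have hN2 : N₂ ≤ N := ((le_max_right _ _).trans (le_max_right _ _)).trans hN
  -- choice of the level k + 1
  obtain ⟨k, hjk, hk1, hk2⟩ : ∃ k, j ≤ k ∧ RR k < N ∧ N ≤ RR (k + 1) := by
    have hex : ∃ k, N ≤ RR k := ⟨N, RR_strictMono.id_le N⟩
    classical
    have h2 := Nat.find_spec hex
    have h3 : j < Nat.find hex := by
      by_contra h
      push Not at h
      have := RR_strictMono.monotone h
      omega
    refine ⟨Nat.find hex - 1, by omega, ?_, ?_⟩
    · have := Nat.find_min hex (m := Nat.find hex - 1) (by omega)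
      omega
    · rw [Nat.sub_add_cancel (by omega)]; exact h2
  have hN0 : (0 : ℝ) ≤ N := Nat.cast_nonneg _
  obtain ⟨p, hp⟩ := hx (k + 2)
  have e1 := est_one hu hp (i := i) (by omega) hk2
  have e2 := est_two (T := T) hu (Nat.le_succ_of_le hjk) p i N
  have e3 := est_three (T := T) (u := u) (j := j) (N := N) p i (hN₁ N hN1)
  have hsplit : ∑ n ∈ range N, u i n * T.f i (sf x (n : ℤ)) =
      ∑ n ∈ range N, u i n * (T.f i (sf x (n : ℤ)) -
        cc T (lev T u (k + 1)) i (ps p (lev T u (k + 1)).len n)) +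
      ∑ n ∈ range N, u i n * (cc T (lev T u (k + 1)) i (ps p (lev T u (k + 1)).len n) -
        cc T (lev T u j) i (ps p l n)) +
      ∑ n ∈ range N, u i n * cc T (lev T u j) i (ps p l n) := by
    rw [← sum_add_distrib, ← sum_add_distrib]
    exact sum_congr rfl fun n _ => by ring
  rw [hsplit]
  refine (abs_add_le _ _).trans ((add_le_add_left (abs_add_le _ _) _).trans ?_)
  have b1 : ee (k + 1) ≤ ε / 8 := (ee_anti (by omega)).trans hj2
  have b2 : 2 * (T.r i : ℝ) / (lev T u (k + 1)).len ≤ ε / 8 := by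
    refine le_trans ?_ hj3
    have : (2 : ℝ) ^ j ≤ (lev T u (k + 1)).len := by
      have h5 : 2 ^ j ≤ 2 ^ (k + 1) := Nat.pow_le_pow_right (by norm_num) (by omega)
      exact_mod_cast h5.trans (le_lev_len T u (k + 1))
    gcongr
  have b3 : 2 * (T.r i : ℝ) / l ≤ ε / 8 := by
    refine le_trans ?_ hj3
    have : (2 : ℝ) ^ j ≤ l := by exact_mod_cast le_lev_len T u j
    gcongr
  have b4 : 4 * ((lev T u (k + 2)).len : ℝ) ≤ ε / 8 * N := by
    refine (len_RR k).trans ?_
    have : (RR k : ℝ) ≤ N := by exact_mod_cast hk1.le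
    have h6 := (ee_pos (k + 1)).le
    gcongr
  have b5 : 4 * (l : ℝ) ≤ ε / 8 * N := by
    have : 4 * l * 8 / ε ≤ (N : ℝ) := hN₂.trans (by exact_mod_cast hN2)
    rw [div_le_iff₀ hε] at this
    linarith
  have b6 : (l : ℝ) * (ε / (4 * l) * N) = ε / 4 * N := by field_simp
  rw [b6] at e3
  have c1 : (N : ℝ) * (ee (k + 1) + 2 * T.r i / (lev T u (k + 1)).len) ≤ N * (ε / 8 + ε / 8) := by
    gcongr
  have c2 : (N : ℝ) * ((1 / 2) ^ (j + 2) + 2 * T.r i / l) ≤ N * (ε / 8 + ε / 8) := by
    gcongr
  linarith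

lemma card_words_XL (hu : ∀ i n, |u i n| ≤ 1) {k j : ℕ} (hkj : k ≤ j) :
    Real.exp (2 / 5 * (lev T u k).len) ≤ (words (XL T u j) (lev T u k).len).ncard := by
  set l := (lev T u k).len with hl
  have hlp : 0 < l := lev_len_pos T u k
  have hLp := lev_len_pos T u j
  obtain ⟨d, hd⟩ := lev_len_dvd T u hkj
  rw [← hl] at hd
  have hfin : (words (XL T u j) l).Finite := Set.toFinite _
  have hd0 : 0 < d := by
    rcases Nat.eq_zero_or_pos d with h | h
    · rw [h, mul_zero] at hd; omega
    · exact h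
  classical
  -- injection
  have hinj : #(lev T u j).B ≤ ((words (XL T u j) l).ncard) ^ d := by
    set D : Finset (Fin l → Bool) := hfin.toFinset with hD
    have h1 : (words (XL T u j) l).ncard = #D := Set.ncard_eq_toFinset_card _ hfin
    rw [h1]
    have h2 : #(Fintype.piFinset (fun _ : Fin d => D)) = #D ^ d := by
      rw [Fintype.card_piFinset]; simp
    rw [← h2]
    refine Finset.card_le_card_of_injOn (fun w t => blk (per hLp w) ((t : ℕ) * l) l) ?_ ?_
    · intro w hw
      rw [Finset.mem_coe, Fintype.mem_piFinset]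
      intro t
      rw [hD, Set.Finite.mem_toFinset]
      refine ⟨fun i => per hLp w (i + ((t : ℕ) * l : ℤ)), ?_, ?_⟩
      · refine XL_shift ⟨0, fun a ha => ?_⟩ _
        rw [sub_zero] at ha
        rw [blk_per hLp w ha]
        exact hw
      · funext m
        unfold blk
        simp only
        congr 1
        ring
    · intro w _ w' _ h
      have h3 : blk (per hLp w) 0 (lev T u j).len = blk (per hLp w') 0 (lev T u j).len := by
        funext m
        have hm := m.2
        have h4 : (m : ℕ) / l < d := by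
          rw [Nat.div_lt_iff_lt_mul hlp, mul_comm, ← hd]; exact hm
        have h5 := congrFun (congrFun h ⟨(m : ℕ) / l, h4⟩) ⟨(m : ℕ) % l, Nat.mod_lt _ hlp⟩
        unfold blk at h5 ⊢
        simp only at h5
        have h6 : ((((m : ℕ) / l : ℕ) : ℤ) * l + (((m : ℕ) % l : ℕ) : ℤ)) = (0 + ((m : ℕ) : ℤ)) := by
          have := Nat.div_add_mod (m : ℕ) l
          rw [zero_add]
          nth_rewrite 3 [← this]
          push_cast
          ring
        rw [h6] at h5
        exact h5
      rw [blk_per hLp w (dvd_zero _), blk_per hLp w' (dvd_zero _)] at h3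
      exact h3
  have hB := lev_card (T := T) hu j
  have hBp : (0 : ℝ) < #(lev T u j).B := by exact_mod_cast hB.1.card_pos
  have hn0 : (0 : ℝ) < (words (XL T u j) l).ncard := by
    rcases Nat.eq_zero_or_pos ((words (XL T u j) l).ncard) with h | h
    · rw [h, zero_pow hd0.ne'] at hinj
      have := hB.1.card_pos
      omega
    · exact_mod_cast h
  have h1 : Real.log #(lev T u j).B ≤ d * Real.log ((words (XL T u j) l).ncard) := by
    rw [← Real.log_pow]
    refine Real.log_le_log hBp ?_
    exact_mod_cast hinj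
  have h2 : ((lev T u j).len : ℝ) = l * d := by rw [hd]; push_cast; ring
  have hd' : (0 : ℝ) < d := by exact_mod_cast hd0
  have hl' : (0 : ℝ) < l := by exact_mod_cast hlp
  have h3 : 2 / 5 * (l : ℝ) ≤ Real.log ((words (XL T u j) l).ncard) := by
    have h4 := hB.2.trans h1
    rw [h2] at h4
    have h5 : (0 : ℝ) < (1 / 2) ^ j / 4 := by positivity
    have h6 : (l : ℝ) * d * (2 / 5) ≤ l * d * (2 / 5 + (1 / 2) ^ j / 4) := by
      have : (0 : ℝ) < l * d := by positivity
      nlinarith
    have h7 : (d : ℝ) * (2 / 5 * l) ≤ d * Real.log ((words (XL T u j) l).ncard) := by linarith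
    exact le_of_mul_le_mul_left h7 hd'
  rw [← Real.exp_log hn0]
  exact Real.exp_le_exp.2 h3

lemma words_XX {n : ℕ} {w : Fin n → Bool} (h : ∀ k, w ∈ words (XL T u k) n) :
    w ∈ words (XX T u) n := by
  have h1 : (⋂ k, (XL T u k ∩ {x | blk x 0 n = w})).Nonempty := by
    refine IsCompact.nonempty_iInter_of_sequence_nonempty_isCompact_isClosed _ ?_ ?_ ?_ ?_
    · intro k
      exact Set.inter_subset_inter_left _ (XL_anti (Nat.le_succ k))
    · intro k
      obtain ⟨x, hx, hw⟩ := h k
      exact ⟨x, hx, hw⟩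
    · exact ((isClosed_XL 0).inter (isClosed_eq (continuous_blk 0 n) continuous_const)).isCompact
    · intro k
      exact (isClosed_XL k).inter (isClosed_eq (continuous_blk 0 n) continuous_const)
  obtain ⟨x, hx⟩ := h1
  rw [Set.mem_iInter] at hx
  exact ⟨x, fun k => (hx k).1, (hx 0).2⟩

theorem card_words (hu : ∀ i n, |u i n| ≤ 1) (k : ℕ) :
    Real.exp (2 / 5 * (lev T u k).len) ≤ (words (XX T u) (lev T u k).len).ncard := by
  classical
  set l := (lev T u k).len with hl
  have h1 : ∀ w : Fin l → Bool, ∃ j : ℕ, w ∉ words (XX T u) l → w ∉ words (XL T u j) l := by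
    intro w
    by_cases hw : w ∈ words (XX T u) l
    · exact ⟨0, fun h => absurd hw h⟩
    · have : ¬ ∀ k, w ∈ words (XL T u k) l := fun h => hw (words_XX h)
      push Not at this
      obtain ⟨j, hj⟩ := this
      exact ⟨j, fun _ => hj⟩
  choose J hJ using h1
  set M := max k (Finset.univ.sup J) with hM
  have h2 : words (XL T u M) l ⊆ words (XX T u) l := by
    intro w hw
    by_contra h
    refine hJ w h (words_mono (XL_anti ?_) l hw)
    exact (Finset.le_sup (Finset.mem_univ w)).trans (le_max_right _ _)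
  refine (card_words_XL (T := T) hu (le_max_left k (Finset.univ.sup J))).trans ?_
  exact_mod_cast Set.ncard_le_ncard h2 (Set.toFinite _)


end Pool.Agent.Y350.MD
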